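import Pool.Agent.U331.FS.V
import Pool.Agent.Results.MP_f80667_ag.DegreeZeroComplexOfTwists

/-!
# Zero-cycles on ALL squarefree twists near the integral combinations of an infinite sequence, for all coverings at once

The curves `C a : b y ^ 2 = ∏ k, G k (z, w)`, `a x ^ m = H (z, w)` are those of the starting result `DegreeZeroComplexOfTwists`. Let
`(b_j, g_j, h_j)`, `j ≥ 0`, be any sequence of admissible data (for example an enumeration of ALL of them). We show that EVERY set `B`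
of natural numbers of positive lower density contains an infinite sequence `x_0, x_1, …` such that for ALL nonzero integral
vectors `u` with finite support and entries of absolute value at most `H`, with largest index `n`, for ALL squarefree integers `a`
with `||a| - |∑ uᵢ xᵢ|| ≤ n`, for ALL `j ≤ n` and all even `m ∣ deg h_j` every adelic zero-cycle of even degree on `C a` which is
orthogonal to the quaternion algebras `(G k, e)` has the values of a persistent family; if the zeros of `h_j` are one or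
two rational numbers and `b ∏ g k (α₁)` is a square, these are the values of a zero-cycle of degree zero over `ℚ`; and the values are
trivial in the two other cases of the starting result. There is no exception among the infinitely many combinations.

Proof: a greedy choice. At the step `n` there are at most `(2 H + 1) ^ (n + 1)` conditions for the new term, each of them excludes at
most twice as many integers as there are integers near the exceptions of the starting result for the first `n + 1` data,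
and these have density zero (`Pool.Agent.U331.FS`).
-/

set_option autoImplicit false

namespace Pool.Agent.Results.MP_f80667_ag.AllCombinations

open Polynomial Filter Pool.Agent.R925.FD Pool.Agent.R925.ZC
open Pool.Agent.U331.FS (AllSumsDens all_sums_seq_int)
open Pool.Agent.Results.MP_f80667_ag.DegreeZeroComplexOfTwists (Admissible AlmostNone EvenDegree OfPersistentClass TrivialValues)

/-- admissible data -/
structure Data where
  /-- the number of the polynomials `g k` -/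
  r : ℕ
  /-- the coefficient `b` -/
  b : ℤ
  /-- the polynomials `g k` -/
  g : Fin r → ℤ[X]
  /-- the polynomial `h` -/
  h : ℤ[X]
  /-- the conditions of the starting result -/
  adm : Admissible b g h

/-- Every orthogonal adelic zero-cycle of even degree has the values of a persistent family. -/
def Persistent (D : Data) (a : ℤ) : Prop :=
  ∀ m : ℕ, 0 < m → Even m → m ∣ D.h.natDegree → ∀ Z : AdelicCycle m D.b a D.g D.h, EvenDegree Z → Z.Orthogonal →
    OfPersistentClass Z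

/-- Every orthogonal adelic zero-cycle of even degree has the values of a zero-cycle of degree zero over `ℚ`. -/
def Global (D : Data) (a : ℤ) : Prop :=
  ∀ m : ℕ, 0 < m → Even m → m ∣ D.h.natDegree → ∀ Z : AdelicCycle m D.b a D.g D.h, EvenDegree Z → Z.Orthogonal →
    ∃ z : Cycle m D.b a D.g D.h ℚ, z.degree = 0 ∧ SameValues Z z

/-- Every orthogonal adelic zero-cycle of even degree has trivial values. -/
def Trivial (D : Data) (a : ℤ) : Prop :=
  ∀ m : ℕ, 0 < m → Even m → m ∣ D.h.natDegree → ∀ Z : AdelicCycle m D.b a D.g D.h, EvenDegree Z → Z.Orthogonal →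
    TrivialValues Z

/-- The zeros of `h` are one or two rational numbers `α₁`, `α₂`, and `b ∏ g k (α₁)` is a square. -/
def Rational (D : Data) : Prop :=
  ∃ α₁ α₂ : ℚ, (∀ β : AlgebraicClosure ℚ, aeval β D.h = 0 ↔ β = α₁ ∨ β = α₂) ∧
    IsSquare ((D.b : ℚ) * ∏ k, aeval α₁ (D.g k))

/-- `h` has at most two zeros `x₁`, `x₂`, and `∏ g k (x₁) g k (x₂)` is not a square in `ℚ`. -/
def TwoZeros (D : Data) : Prop :=
  ∃ (x₁ x₂ : AlgebraicClosure ℚ) (N : Fin D.r → ℚ), (∀ β : AlgebraicClosure ℚ, aeval β D.h = 0 → β = x₁ ∨ β = x₂) ∧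
    (∀ k, aeval x₁ (D.g k) * aeval x₂ (D.g k) = (N k : AlgebraicClosure ℚ)) ∧ (∀ k, N k ≠ 0) ∧ ¬ IsSquare (∏ k, N k)

/-- The zeros of `h` are square roots of `A`, `B`, `A B`, none of them a square, and the values of the `g k` there are rational, not
zero, and depend only on the squares of the zeros. -/
def ThreeSquares (D : Data) : Prop :=
  ∃ (A B : ℚ) (v₁ v₂ v₃ : Fin D.r → ℚ), ¬ IsSquare A ∧ ¬ IsSquare B ∧ ¬ IsSquare (A * B) ∧
    (∀ β : AlgebraicClosure ℚ, aeval β D.h = 0 → β ^ 2 = (A : AlgebraicClosure ℚ) ∨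
      β ^ 2 = (B : AlgebraicClosure ℚ) ∨ β ^ 2 = ((A * B : ℚ) : AlgebraicClosure ℚ)) ∧
    (∀ k, v₁ k ≠ 0) ∧ (∀ k, v₂ k ≠ 0) ∧ (∀ k, v₃ k ≠ 0) ∧
    (∀ k β, β ^ 2 = (A : AlgebraicClosure ℚ) → aeval β (D.g k) = (v₁ k : AlgebraicClosure ℚ)) ∧
    (∀ k β, β ^ 2 = (B : AlgebraicClosure ℚ) → aeval β (D.g k) = (v₂ k : AlgebraicClosure ℚ)) ∧
    (∀ k β, β ^ 2 = ((A * B : ℚ) : AlgebraicClosure ℚ) → aeval β (D.g k) = (v₃ k : AlgebraicClosure ℚ))

/-- For ALL `j ≤ n` and ALL squarefree integers `a` with `||a| - v| ≤ n` the assertions hold for the data with the number `j`. -/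
def Near (D : ℕ → Data) (n v : ℕ) : Prop :=
  ∀ j ≤ n, ∀ a : ℤ, |(|a| : ℤ) - v| ≤ n → Squarefree a →
    Persistent (D j) a ∧ (Rational (D j) → Global (D j) a) ∧ (TwoZeros (D j) ∨ ThreeSquares (D j) → Trivial (D j) a)

/-- density zero -/
def DZ (P : ℤ → Prop) : Prop :=
  ∀ ε : ℝ, 0 < ε → ∃ X₀ : ℕ, ∀ X : ℕ, X₀ ≤ X → ({k : ℤ | |k| ≤ (X : ℤ) ∧ P k}.ncard : ℝ) ≤ ε * X

lemma fin (X : ℕ) (P : ℤ → Prop) : {k : ℤ | |k| ≤ (X : ℤ) ∧ P k}.Finite :=
  (Set.finite_Icc (-(X : ℤ)) X).subset fun _ hk => Set.mem_Icc.2 (abs_le.1 hk.1)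

lemma DZ.mono {P Q : ℤ → Prop} (hQ : DZ Q) (h : ∀ a, P a → Q a) : DZ P := by
  intro ε hε
  obtain ⟨X₀, hX₀⟩ := hQ ε hε
  refine ⟨X₀, fun X hX => le_trans ?_ (hX₀ X hX)⟩
  exact Nat.cast_le.2 (Set.ncard_le_ncard (fun a ha => ⟨ha.1, h a ha.2⟩) (fin X Q))

lemma DZ.or {P Q : ℤ → Prop} (hP : DZ P) (hQ : DZ Q) : DZ (fun a => P a ∨ Q a) := by
  intro ε hε
  obtain ⟨X₀, hX₀⟩ := hP (ε / 2) (by positivity)
  obtain ⟨X₁, hX₁⟩ := hQ (ε / 2) (by positivity)
  refine ⟨max X₀ X₁, fun X hX => ?_⟩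
  have h1 := hX₀ X ((le_max_left _ _).trans hX)
  have h2 := hX₁ X ((le_max_right _ _).trans hX)
  have h3 : {k : ℤ | |k| ≤ (X : ℤ) ∧ (P k ∨ Q k)} ⊆ {k : ℤ | |k| ≤ (X : ℤ) ∧ P k} ∪ {k : ℤ | |k| ≤ (X : ℤ) ∧ Q k} := by
    rintro k ⟨h4, h5 | h5⟩
    · exact Or.inl ⟨h4, h5⟩
    · exact Or.inr ⟨h4, h5⟩
  have h4 : ({k : ℤ | |k| ≤ (X : ℤ) ∧ (P k ∨ Q k)}.ncard : ℝ) ≤
      ({k : ℤ | |k| ≤ (X : ℤ) ∧ P k}.ncard : ℝ) + ({k : ℤ | |k| ≤ (X : ℤ) ∧ Q k}.ncard : ℝ) := by
    exact_mod_cast (Set.ncard_le_ncard h3 ((fin X P).union (fin X Q))).trans (Set.ncard_union_le _ _)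
  linarith

lemma DZ.false : DZ (fun _ => False) := by
  intro ε hε
  refine ⟨0, fun X _ => ?_⟩
  have h : {k : ℤ | |k| ≤ (X : ℤ) ∧ False} = ∅ := by
    ext k
    simp
  rw [h, Set.ncard_empty, Nat.cast_zero]
  positivity

lemma DZ.of {P : ℤ → Prop} (h : AlmostNone P) : DZ (fun a => Squarefree a ∧ P a) := by
  intro ε hε
  obtain ⟨κ, hκ, C, hC⟩ := h
  have h1 : Tendsto (fun X : ℕ => C * (Real.log X) ^ (-κ)) atTop (nhds 0) := by
    have h2 := ((tendsto_rpow_neg_atTop hκ).comp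
      (Real.tendsto_log_atTop.comp tendsto_natCast_atTop_atTop)).const_mul C
    simpa using h2
  obtain ⟨X₀, hX₀⟩ := eventually_atTop.mp (h1.eventually (gt_mem_nhds hε))
  refine ⟨max X₀ 3, fun X hX => ?_⟩
  have h2 := hC X ((le_max_right _ _).trans hX)
  have h3 := hX₀ X ((le_max_left _ _).trans hX)
  have e : {k : ℤ | |k| ≤ (X : ℤ) ∧ (Squarefree k ∧ P k)} = {a : ℤ | a.natAbs ≤ X ∧ Squarefree a ∧ P a} := by
    ext k
    simp only [Set.mem_ofPred_eq]
    constructor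
    · rintro ⟨h5, h6, h7⟩
      exact ⟨by rw [← Int.natCast_natAbs] at h5; exact_mod_cast h5, h6, h7⟩
    · rintro ⟨h5, h6, h7⟩
      exact ⟨by rw [← Int.natCast_natAbs]; exact_mod_cast h5, h6, h7⟩
  rw [e]
  calc ({a : ℤ | a.natAbs ≤ X ∧ Squarefree a ∧ P a}.ncard : ℝ) ≤ C * X * (Real.log X) ^ (-κ) := h2
    _ = (C * (Real.log X) ^ (-κ)) * X := by ring
    _ ≤ ε * X := mul_le_mul_of_nonneg_right h3.le (Nat.cast_nonneg _)

/-- **Theorem.** For all sequences `D j` of admissible data the property `Near D n v` holds for all combinations `v` with bounded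
coefficients and largest index `n` of an infinite sequence in every set of positive lower density (`AllSumsDens`). -/
theorem result (D : ℕ → Data) : AllSumsDens (fun n _ v => Near D n v) := by
  classical
  refine all_sums_seq_int (G := fun j a => Squarefree a →
    Persistent (D j) a ∧ (Rational (D j) → Global (D j) a) ∧ (TwoZeros (D j) ∨ ThreeSquares (D j) → Trivial (D j) a))
    (fun j => ?_)
  obtain ⟨h1, h2, h3, h4, -⟩ := DegreeZeroComplexOfTwists.result.1 (Fin (D j).r) (D j).b (D j).g (D j).h (D j).adm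
  have e1 := DZ.of h1
  have e2 : DZ (fun a => Squarefree a ∧ (Rational (D j) ∧ ∃ m, 0 < m ∧ Even m ∧ m ∣ (D j).h.natDegree ∧
      ∃ Z : AdelicCycle m (D j).b a (D j).g (D j).h, EvenDegree Z ∧ Z.Orthogonal ∧
        ¬ ∃ z : Cycle m (D j).b a (D j).g (D j).h ℚ, z.degree = 0 ∧ SameValues Z z)) := by
    by_cases hc : Rational (D j)
    · obtain ⟨α₁, α₂, g1, g2⟩ := hc
      exact (DZ.of (h2 α₁ α₂ g1 g2)).mono fun a ha => ⟨ha.1, ha.2.2⟩
    · exact DZ.false.mono fun a ha => hc ha.2.1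
  have e3 : DZ (fun a => Squarefree a ∧ (TwoZeros (D j) ∧ ∃ m, 0 < m ∧ Even m ∧ m ∣ (D j).h.natDegree ∧
      ∃ Z : AdelicCycle m (D j).b a (D j).g (D j).h, EvenDegree Z ∧ Z.Orthogonal ∧ ¬ TrivialValues Z)) := by
    by_cases hc : TwoZeros (D j)
    · obtain ⟨x₁, x₂, N, g1, g2, g3, g4⟩ := hc
      exact (DZ.of (h3 x₁ x₂ N g1 g2 g3 g4)).mono fun a ha => ⟨ha.1, ha.2.2⟩
    · exact DZ.false.mono fun a ha => hc ha.2.1
  have e4 : DZ (fun a => Squarefree a ∧ (ThreeSquares (D j) ∧ ∃ m, 0 < m ∧ Even m ∧ m ∣ (D j).h.natDegree ∧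
      ∃ Z : AdelicCycle m (D j).b a (D j).g (D j).h, EvenDegree Z ∧ Z.Orthogonal ∧ ¬ TrivialValues Z)) := by
    by_cases hc : ThreeSquares (D j)
    · obtain ⟨A, B, v₁, v₂, v₃, g1, g2, g3, g4, g5, g6, g7, g8, g9, g10⟩ := hc
      exact (DZ.of (h4 A B v₁ v₂ v₃ g1 g2 g3 g4 g5 g6 g7 g8 g9 g10)).mono fun a ha => ⟨ha.1, ha.2.2⟩
    · exact DZ.false.mono fun a ha => hc ha.2.1
  refine ((e1.or e2).or (e3.or e4)).mono fun a ha => ?_
  by_contra hcon
  simp only [not_or] at hcon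
  obtain ⟨⟨n1, n2⟩, n3, n4⟩ := hcon
  apply ha
  intro hsq
  refine ⟨?_, ?_, ?_⟩
  · intro m hm1 hm2 hm3 Z hZ1 hZ2
    by_contra hn
    exact n1 ⟨hsq, m, hm1, hm2, hm3, Z, hZ1, hZ2, hn⟩
  · intro hR m hm1 hm2 hm3 Z hZ1 hZ2
    by_contra hn
    exact n2 ⟨hsq, hR, m, hm1, hm2, hm3, Z, hZ1, hZ2, hn⟩
  · rintro (hR | hR) m hm1 hm2 hm3 Z hZ1 hZ2
    · by_contra hn
      exact n3 ⟨hsq, hR, m, hm1, hm2, hm3, Z, hZ1, hZ2, hn⟩
    · by_contra hn
      exact n4 ⟨hsq, hR, m, hm1, hm2, hm3, Z, hZ1, hZ2, hn⟩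

end Pool.Agent.Results.MP_f80667_ag.AllCombinations
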