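import Pool.Agent.U552.UD.Tw
import Pool.Agent.U552.UD.FairOrd
import Pool.Agent.Results.MP_f80667_ag.RandomOrbits

/-!
# Zero-cycles of degree zero on twists of cyclic coverings by the values of all polynomials of degree one in some variable
# along all fair sequences: real polynomials, arbitrary functions of given orders

Let `b y ^ 2 = ∏ k, G k (z, w)` be a hyperelliptic curve `D` over `ℚ`, where the `G k` are the
homogenisations of polynomials `g k` with integral coefficients, of even degrees, pairwise coprime, and
let `h` be a polynomial with integral coefficients, coprime to the `g k`, `H` its homogenisation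
(`Admissible`). For an integer `a` and an even `m ∣ deg h` let

  `C a : b y ^ 2 = ∏ k, G k (z, w)`, `a x ^ m = H (z, w)`.

The integer `a` is `Good` (definition of the starting result `RandomOrbits`) if for all even `m ∣ deg h` and every
adelic zero-cycle `(z_v)` of degree zero (or of even degree) on `C a` which is orthogonal to the quaternion
algebras `(G k, e)`:
* there are squarefree integers `n k` with `G k (z_v) = n k` in `ℚ_v* / ℚ_v*²` for all `k` and all `v`,
  and the family `n` is persistent;
* if the zeros of `h` are one or two rational numbers `α₁`, `α₂` and `b ∏ g k (α₁)` is a square, there is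
  a zero-cycle `z` of degree zero over `ℚ` with `G k (z) = G k (z_v)` in `ℚ_v* / ℚ_v*²` for all `k`, `v`;
* if `h` has at most two zeros `x₁`, `x₂` and `∏ k, g k (x₁) g k (x₂)` is not a square in `ℚ`, or if the
  zeros of `h` are square roots of `A`, `B`, `A B`, where `A`, `B`, `A B` are not squares, and the values
  of the `g k` there are rational and depend only on the squares of the zeros, then `G k (z_v) = 1` in
  `ℚ_v* / ℚ_v*²` for all `k` and all `v`.

**Theorem.** (1) Let the sequence `c_{n,0}, c_{n,1}, …`, `n = 0, 1, …`, of infinite integral vectors be `Fair`: for every finite set of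
indices with `s` elements the proportion of the `n < N` with given residues of the `c_{n,l}` modulo `q` is at most
`C q ^ (-s) + o(1)`, where `C` depends on the set of indices only. There is ONE set `E` of natural numbers of density zero, depending on the sequence only, such
that for ALL `F` and ALL families `(b, g, h)` the integer `a = F(c_{n,0}, c_{n,1}, …)` is `Good` for all but finitely many `n`
outside `E`; and for all but finitely many `n` outside `E` all adelic zero-cycles of even degree on the curves
`y² = (z² + 51) (z² - 1)`, `a x ^ m = (z² + 1) (z² - 17) (z² + 17)`, `m = 2, 6`, which are orthogonal to the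
quaternion algebras `(G k, e)` have the trivial values `G k (z_v) = 1`. Here `F` runs through ALL integral polynomials in finitely many of the coordinates which have degree one in at least one of
their variables; for example `F(c) = λ_0 c_0 + … + λ_k c_k` (a linear form), `F(c) = u c_0 c_1 ^ e_1 ⋯ c_k ^ e_k`, or the
determinant of a matrix whose entries are different coordinates.

(2) `c_{n,l} = ⌊x_l(n)⌋` is fair if the exponential means of all nontrivial rational combinations of the real sequences `x_l`
tend to zero (`UniformlyDistributed`).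

(3) This is so for the values `x_l(n) = P_l(n)` of real polynomials if no nontrivial integral combination of finitely many of
them has only rational coefficients in positive degrees, for example for `x_l(n) = α_l n`, where `1, α_0, α_1, …` are
linearly independent over the rational numbers.

(4) `c_{n,l} = ⌊f_l(n)⌋` is fair for ARBITRARY functions of different orders `γ_l > 0`: for some `d > γ_l` (common for any
finitely many of them) the differences of order `d` of `f_l` have a constant sign and are `n ^ (γ_l - d + o(1))` in absolute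
value. There is no smoothness and no formula; examples are `n ^ γ` with `γ` not an integer, `n ^ j log n`, all functions of
a Hardy field with the same growth, plus arbitrary real polynomials of degree below `d`, and irregular functions.

The starting results: `RandomOrbits` and `MetricSequences` have linear forms for almost all random orbits and almost all
real numbers; `ThinSequences` has monomials and sequences which are exactly uniformly distributed modulo all `q`, in
particular generalised polynomials with nonintegral leading exponents.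

Proof. `a` is `Good` if it has exact prime divisors in each of finitely many sets of primes with divergent sums of
reciprocals (starting library). For a prime `p` in such a set at least the proportion `1 / (4 p)` of the vectors of
residues modulo `p²` satisfies `p ∣ F`, `p² ∤ F` (if `F = A c_l + B` and `p` does not divide `A`, then `c_l` is determined by
`F`, and `A` has few zeros modulo `p`), so the vectors without such a divisor form a pronull set (`Pool.Agent.N24.RW`). Fair
sequences visit a pronull set only at times of density zero, and a diagonal argument gives one set `E`. (2) uses products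
of Fejer kernels (`Pool.Agent.U552.UD`), (3) is Weyl's theorem (starting library), (4) is a derivative test of order `d` for
functions without smoothness (helper828, `Pool.Agent.U828.KD.order_well`).
-/

set_option autoImplicit false

namespace Pool.Agent.Results.MP_f80667_ag.FairSequences

open Polynomial Filter Topology Pool.Agent.R925.FD Pool.Agent.R925.ZC
open Pool.Agent.N676.OR (Big)
open Pool.Agent.Results.MP_f80667_ag.DegreeZeroComplexOfTwists (Admissible)
open Pool.Agent.Results.MP_f80667_ag.RandomOrbits (Good good_of adm_ex AllTrivial ex_trivial)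

/-- `S` has density zero. -/
def Null (S : Set ℕ) : Prop :=
  Tendsto (fun N : ℕ => (({n : ℕ | n < N ∧ n ∈ S}.ncard : ℕ) : ℝ) / (N : ℝ)) atTop (𝓝 0)

/-- For every finite set of indices, with `s` elements, the proportion of the `n < N` with given residues of the
`c n l` modulo `q` is at most `C q ^ (-s) + o(1)`, where `C` depends on the set only. -/
def Fair (c : ℕ → ℕ → ℤ) : Prop :=
  ∀ s : Finset ℕ, ∃ C : ℝ, ∀ q : ℕ, 0 < q → ∀ (a : ℕ → ℤ) (δ : ℝ), 0 < δ → ∃ N₀ : ℕ, ∀ N : ℕ, N₀ ≤ N →
    (({n : ℕ | n < N ∧ ∀ l ∈ s, (q : ℤ) ∣ c n l - a l}.ncard : ℕ) : ℝ) ≤ (C / (q : ℝ) ^ s.card + δ) * N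

/-- The exponential means of all nontrivial rational combinations of the sequences `x 0, x 1, …` tend to zero. -/
def UniformlyDistributed (x : ℕ → ℕ → ℝ) : Prop :=
  ∀ (s : Finset ℕ) (h : ℕ → ℚ), (∃ l ∈ s, h l ≠ 0) →
    Tendsto (fun N : ℕ => (∑ n ∈ Finset.range N,
      Complex.exp (2 * Real.pi * ((∑ l ∈ s, (h l : ℝ) * x l n : ℝ) : ℂ) * Complex.I)) / (N : ℂ)) atTop (𝓝 0)

/-- No nontrivial integral combination of finitely many of the polynomials has only rational coefficients in positive
degrees. -/
def Independent (P : ℕ → Polynomial ℝ) : Prop :=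
  ∀ (s : Finset ℕ) (h : ℕ → ℤ), (∃ l ∈ s, h l ≠ 0) →
    ∃ j : ℕ, 1 ≤ j ∧ Irrational (∑ l ∈ s, (h l : ℝ) * (P l).coeff j)

/-- The differences of order `d` of `f` have a constant sign and are `n ^ (c - d + o(1))` in absolute value. -/
def Order (d : ℕ) (c : ℝ) (f : ℕ → ℝ) : Prop :=
  ∀ ε : ℝ, 0 < ε → ∃ T : ℕ,
    (∀ n : ℕ, T ≤ n → (n : ℝ) ^ (c - d - ε) ≤ (fwdDiff 1)^[d] f n ∧
      (fwdDiff 1)^[d] f n ≤ (n : ℝ) ^ (c - d + ε)) ∨
    (∀ n : ℕ, T ≤ n → (n : ℝ) ^ (c - d - ε) ≤ -(fwdDiff 1)^[d] f n ∧
      -(fwdDiff 1)^[d] f n ≤ (n : ℝ) ^ (c - d + ε))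

/-- For every `k` the functions `f_0, …, f_k` have the orders `γ_0, …, γ_k`, with a common order of differences. -/
def Orders (γ : ℕ → ℝ) (f : ℕ → ℕ → ℝ) : Prop :=
  ∀ k : ℕ, ∃ d : ℕ, 2 ≤ d ∧ ∀ l ≤ k, γ l < d ∧ Order d (γ l) (f l)

theorem fair_main (c : ℕ → ℕ → ℤ) (hc : Fair c) : ∃ E : Set ℕ, Null E ∧ ∀ F : MvPolynomial ℕ ℤ, (∃ l, F.degreeOf l = 1) →
    (∀ (r : ℕ) (b : ℤ) (g : Fin r → ℤ[X]) (h : ℤ[X]), Admissible b g h →
      {n : ℕ | n ∉ E ∧ ¬ Good b g h (MvPolynomial.eval (c n) F)}.Finite) ∧
    {n : ℕ | n ∉ E ∧ ¬ AllTrivial 1 exg exh (MvPolynomial.eval (c n) F)}.Finite := by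
  classical
  have hcp := Pool.Agent.N676.OR.countable_poly
  obtain ⟨E, hE, hall⟩ := Pool.Agent.U552.UD.Fair.values (𝔇 := Σ r : ℕ, ℤ × (Fin r → ℤ[X]) × ℤ[X])
    (fun D a => Admissible D.2.1 D.2.2.1 D.2.2.2 → Good D.2.1 D.2.2.1 D.2.2.2 a) (by
    rintro ⟨r, b, g, h⟩
    by_cases hA : Admissible b g h
    · obtain ⟨PP, h1, h2, h3⟩ := good_of hA
      exact ⟨PP, h1, h2, fun a ha _ => h3 a ha⟩
    · exact ⟨∅, Set.finite_empty, fun P hP => absurd hP (Set.notMem_empty _),
        fun a _ hA' => absurd hA' hA⟩) hc
  have hgen : ∀ F : MvPolynomial ℕ ℤ, (∃ l, F.degreeOf l = 1) →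
      ∀ (r : ℕ) (b : ℤ) (g : Fin r → ℤ[X]) (h : ℤ[X]), Admissible b g h →
          {t : ℕ | t ∉ E ∧ ¬ Good b g h (MvPolynomial.eval (c t) F)}.Finite := by
    intro F hF r b g h hA
    refine (hall F hF ⟨r, b, g, h⟩).subset ?_
    rintro t ⟨ht, ht'⟩
    exact ⟨ht, fun hgood => ht' (hgood hA)⟩
  refine ⟨E, hE, fun F hF => ⟨hgen F hF, ?_⟩⟩
  refine (hgen F hF 2 1 exg exh adm_ex).subset ?_
  rintro t ⟨ht, ht'⟩
  exact ⟨ht, fun hgood => ht' (ex_trivial hgood)⟩

/-- **Zero-cycles on the twists by the values of polynomials along fair sequences.** -/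
theorem result :
    (∀ c : ℕ → ℕ → ℤ, Fair c → ∃ E : Set ℕ, Null E ∧ ∀ F : MvPolynomial ℕ ℤ, (∃ l, F.degreeOf l = 1) →
      (∀ (r : ℕ) (b : ℤ) (g : Fin r → ℤ[X]) (h : ℤ[X]), Admissible b g h →
        {n : ℕ | n ∉ E ∧ ¬ Good b g h (MvPolynomial.eval (c n) F)}.Finite) ∧
      {n : ℕ | n ∉ E ∧ ¬ AllTrivial 1 exg exh (MvPolynomial.eval (c n) F)}.Finite) ∧
    (∀ x : ℕ → ℕ → ℝ, UniformlyDistributed x → Fair (fun n l => ⌊x l n⌋)) ∧
    (∀ P : ℕ → Polynomial ℝ, Independent P → UniformlyDistributed (fun l n => (P l).eval (n : ℝ))) ∧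
    ∀ (γ : ℕ → ℝ) (f : ℕ → ℕ → ℝ), (∀ l, 0 < γ l) → Function.Injective γ → Orders γ f →
      Fair (fun n l => ⌊f l n⌋) :=
  ⟨fun c hc => fair_main c hc,
    fun _ hx => Pool.Agent.U552.UD.fair_of_weyl hx,
    fun _ hP => Pool.Agent.U552.UD.weylFamily_of_poly hP,
    fun _ _ h0 hinj hf => Pool.Agent.U552.UD.fair_of_orders h0 hinj hf⟩

end Pool.Agent.Results.MP_f80667_ag.FairSequences
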