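import Pool.Agent.Results.MP_f80667_ag.RandomOrbits
import Pool.Agent.U125.NO.Tw

/-!
# Zero-cycles of degree zero on twists of cyclic coverings along normal sequences

Let `b y ^ 2 = ∏ k, G k (z, w)` be a hyperelliptic curve `D` over `ℚ`, where the `G k` are the
homogenisations of polynomials `g k` with integral coefficients, of even degrees, pairwise coprime, and
let `h` be a polynomial with integral coefficients, coprime to the `g k`, `H` its homogenisation
(`Admissible`). For an integer `a` and an even `m ∣ deg h` let

  `C a : b y ^ 2 = ∏ k, G k (z, w)`, `a x ^ m = H (z, w)`.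

The integer `a` is `Good` (definition of the starting result `RandomOrbits`) if for all even `m ∣ deg h` and every
adelic zero-cycle `(z_v)` of degree zero (or of even degree) on `C a` which is orthogonal to the quaternion
algebras `(G k, e)`:
* there are squarefree integers `n k` with `G k (z_v) = n k` in `ℚ_v* / ℚ_v*²` for all `k` and all `v`,
  and the family `n` is persistent;
* if the zeros of `h` are one or two rational numbers `α₁`, `α₂` and `b ∏ g k (α₁)` is a square, there is
  a zero-cycle `z` of degree zero over `ℚ` with `G k (z) = G k (z_v)` in `ℚ_v* / ℚ_v*²` for all `k`, `v`;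
* if `h` has at most two zeros `x₁`, `x₂` and `∏ k, g k (x₁) g k (x₂)` is not a square in `ℚ`, or if the
  zeros of `h` are square roots of `A`, `B`, `A B`, where `A`, `B`, `A B` are not squares, and the values
  of the `g k` there are rational and depend only on the squares of the zeros, then `G k (z_v) = 1` in
  `ℚ_v* / ℚ_v*²` for all `k` and all `v`.

The starting results `RandomOrbits` and `MetricSequences` treat `a = λ(c_t)` for almost every random orbit
`c_0, c_1, …` of a thin group, and for the integral parts of almost all multiples. Here:

**Theorem.** Let `c_0, c_1, …` be a normal orbit in `ℤ^ι` (`NormalOrbit`): the orbit of an integral vector under a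
finite family of integral affine maps along ANY normal sequence of indices, the family being wide (for all `q`
prime to some `q₀` the maps are bijective modulo `q`, and the vector can be moved to at least the proportion
`ε > 0`, not depending on `q`, of all vectors modulo `q`). There is ONE set `E` of times of density zero such that
for ALL linear forms `λ ≠ 0` and ALL families `(b, g, h)` the integer `a = λ(c_t)` is `Good` for all but finitely
many `t` outside `E`; and for all but finitely many `t` outside `E` all adelic zero-cycles of even degree on the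
curves `y² = (z² + 51) (z² - 1)`, `a x ^ m = (z² + 1) (z² - 17) (z² + 17)`, `m = 2, 6`, which are orthogonal to the
quaternion algebras `(G k, e)` have the trivial values `G k (z_v) = 1`; these curves have points over `ℝ` and
over all `ℚ_p`.

Examples: (1) `c_t = (⌊b ^ t ξ_i⌋)_i` for ANY vector `ξ` of real numbers which is normal to the base `b ≥ 2`: so we
twist the curves by the integers which appear if we write down the digits of ANY normal number; (2) the orbit of
any vector `v ≠ 0` along ANY normal word in matrices which generate the special linear group modulo all `q`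
prime to some `q₀` (generators of a thin group); (3) vectors of integers whose digits are chosen from a
restricted set of vectors.

Proof. The exceptional vectors are pronull sets (`RandomOrbits`), and normal orbits visit a pronull set only at
times of density zero (engine `Pool.Agent.U125.NO`); a diagonal argument gives one set `E`.
-/

set_option autoImplicit false

namespace Pool.Agent.Results.MP_f80667_ag.NormalSequences

open Polynomial Pool.Agent.R925.FD Pool.Agent.R925.ZC
open Pool.Agent.N676.OR (DensityZero Big)
open Pool.Agent.U125.NO (NormalOrbit Examples examples)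
open Pool.Agent.Results.MP_f80667_ag.DegreeZeroComplexOfTwists (Admissible)
open Pool.Agent.Results.MP_f80667_ag.RandomOrbits (Good good_of adm_ex AllTrivial ex_trivial)

theorem result :
    (∀ (ι : Type) [Fintype ι] [DecidableEq ι] (c : ℕ → ι → ℤ), NormalOrbit c →
      ∃ E : Set ℕ, DensityZero E ∧ ∀ lam : ι → ℤ, lam ≠ 0 →
        (∀ (r : ℕ) (b : ℤ) (g : Fin r → ℤ[X]) (h : ℤ[X]), Admissible b g h →
          {t : ℕ | t ∉ E ∧ ¬ Good b g h (∑ i, lam i * c t i)}.Finite) ∧
        {t : ℕ | t ∉ E ∧ ¬ AllTrivial 1 exg exh (∑ i, lam i * c t i)}.Finite) ∧
    ∀ (ι : Type) [Fintype ι] [DecidableEq ι], Examples ι := by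
  classical
  have hcp := Pool.Agent.N676.OR.countable_poly
  refine ⟨fun ι _ _ c hc => ?_, fun ι _ _ => examples ι⟩
  obtain ⟨E, hE, hall⟩ := Pool.Agent.U125.NO.twists (𝔇 := Σ r : ℕ, ℤ × (Fin r → ℤ[X]) × ℤ[X])
    (fun D a => Admissible D.2.1 D.2.2.1 D.2.2.2 → Good D.2.1 D.2.2.1 D.2.2.2 a) (by
    rintro ⟨r, b, g, h⟩
    by_cases hA : Admissible b g h
    · obtain ⟨PP, h1, h2, h3⟩ := good_of hA
      exact ⟨PP, h1, h2, fun a ha _ => h3 a ha⟩
    · exact ⟨∅, Set.finite_empty, fun P hP => absurd hP (Set.notMem_empty _),
        fun a _ hA' => absurd hA' hA⟩) hc.avoids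
  have hgen : ∀ lam : ι → ℤ, lam ≠ 0 →
      ∀ (r : ℕ) (b : ℤ) (g : Fin r → ℤ[X]) (h : ℤ[X]), Admissible b g h →
          {t : ℕ | t ∉ E ∧ ¬ Good b g h (∑ i, lam i * c t i)}.Finite := by
    intro lam hlam r b g h hA
    refine (hall lam hlam ⟨r, b, g, h⟩).subset ?_
    rintro t ⟨ht, ht'⟩
    exact ⟨ht, fun hgood => ht' (hgood hA)⟩
  refine ⟨E, hE, fun lam hlam => ⟨hgen lam hlam, ?_⟩⟩
  refine (hgen lam hlam 2 1 exg exh adm_ex).subset ?_
  rintro t ⟨ht, ht'⟩
  exact ⟨ht, fun hgood => ht' (ex_trivial hgood)⟩

end Pool.Agent.Results.MP_f80667_ag.NormalSequences
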